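import Pool.Agent.helper9.HX.Spec

set_option autoImplicit false
set_option linter.unusedVariables false

open scoped Classical

namespace Pool.Agent.helper9.HX

open Finset
open Pool.Agent.helper65.HC (V IsEig IsTop lam)
open Pool.Agent.helper9.HQ (Fam Dn E N Le hi c)
open Pool.Agent.helper9

/-- the members of the pairs through `o` -/
theorem CNS_pair {d : ℕ} {o : Fin d} {x : Finset (Fin d)} (hx : x.card = 2) (ho : o ∈ x) :
    ∃ i, i ≠ o ∧ x = {o, i} := by
  obtain ⟨a, b, hab, rfl⟩ := card_eq_two.mp hx
  rcases mem_insert.mp ho with h | h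
  · subst h
    exact ⟨b, hab.symm, rfl⟩
  · rw [mem_singleton] at h
    subst h
    exact ⟨a, hab, pair_comm _ _⟩

theorem CNS_erase {d : ℕ} {o : Fin d} {x : Finset (Fin d)} (hx : x.card = 2) (ho : o ∈ x) :
    ∃ i, i ≠ o ∧ x = {o, i} ∧ x.erase o = {i} := by
  obtain ⟨i, hi, rfl⟩ := CNS_pair hx ho
  refine ⟨i, hi, rfl, ?_⟩
  ext j
  simp only [mem_erase, mem_insert, mem_singleton]
  constructor
  · rintro ⟨h1, h2 | h2⟩
    · exact absurd h2 h1
    · exact h2
  · intro h
    subst h
    exact ⟨hi, Or.inr rfl⟩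

/-- `dg o U + 1 ≤ nu U` if `{o} ∈ U` -/
theorem CNS_dg {d : ℕ} (U : Fam d) (hD : Dn U) (o : Fin d) (ho : {o} ∈ U) :
    dg o U + 1 ≤ nu U := by
  unfold dg nu
  have hinj : Set.InjOn (fun x : Finset (Fin d) => x.erase o)
      ((U.filter fun x => x.card = 2 ∧ o ∈ x : Fam d) : Set (Finset (Fin d))) := by
    intro x hx y hy hxy
    have hx' := (mem_filter.mp (mem_coe.mp hx)).2
    have hy' := (mem_filter.mp (mem_coe.mp hy)).2
    have h1 : insert o (x.erase o) = x := insert_erase hx'.2
    have h2 : insert o (y.erase o) = y := insert_erase hy'.2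
    rw [← h1, ← h2]
    exact congrArg (insert o) hxy
  have h1 : (insert {o} ((U.filter fun x => x.card = 2 ∧ o ∈ x).image
      (fun x : Finset (Fin d) => x.erase o))).card =
      (U.filter fun x => x.card = 2 ∧ o ∈ x).card + 1 := by
    rw [card_insert_of_notMem, card_image_of_injOn hinj]
    intro hmem
    obtain ⟨x, hx, hxo⟩ := mem_image.mp hmem
    have : o ∈ x.erase o := by rw [hxo]; exact mem_singleton_self o
    simp at this
  rw [← h1]
  apply card_le_card
  intro y hy
  rcases mem_insert.mp hy with h | h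
  · subst h
    exact mem_filter.mpr ⟨ho, card_singleton _⟩
  · obtain ⟨x, hx, rfl⟩ := mem_image.mp h
    obtain ⟨hxU, hx2, hox⟩ := mem_filter.mp hx
    refine mem_filter.mpr ⟨hD x hxU _ (erase_subset _ _), ?_⟩
    rw [card_erase_of_mem hox, hx2]

theorem CNS_two {d : ℕ} (U : Fam d) (o j : Fin d) (hjo : j ≠ o) :
    dg j U + dg o U ≤ ee U + 1 := by
  unfold dg ee
  set A := U.filter fun x => x.card = 2 ∧ j ∈ x with hA
  set B := U.filter fun x => x.card = 2 ∧ o ∈ x with hB
  have h1 : (A ∪ B).card + (A ∩ B).card = A.card + B.card := card_union_add_card_inter A B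
  have h2 : (A ∩ B).card ≤ 1 := by
    have : A ∩ B ⊆ {{o, j}} := by
      intro x hx
      obtain ⟨ha, hb⟩ := mem_inter.mp hx
      obtain ⟨-, hx2, hjx⟩ := mem_filter.mp ha
      obtain ⟨-, -, hox⟩ := mem_filter.mp hb
      obtain ⟨i, hi, rfl⟩ := CNS_pair hx2 hox
      rcases mem_insert.mp hjx with h | h
      · exact absurd h hjo
      · rw [mem_singleton] at h
        subst h
        exact mem_singleton_self _
    calc (A ∩ B).card ≤ ({{o, j}} : Fam d).card := card_le_card this
      _ = 1 := card_singleton _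
  have h3 : (A ∪ B).card ≤ (U.filter fun x => x.card = 2).card := by
    apply card_le_card
    intro x hx
    rcases mem_union.mp hx with h | h
    · obtain ⟨a, b, -⟩ := mem_filter.mp h
      exact mem_filter.mpr ⟨a, b⟩
    · obtain ⟨a, b, -⟩ := mem_filter.mp h
      exact mem_filter.mpr ⟨a, b⟩
  omega

theorem CNS_card {d : ℕ} (U : Fam d) (h0 : ∅ ∈ U) : 1 + nu U + ee U ≤ U.card := by
  unfold nu ee
  have hd1 : Disjoint (U.filter fun x => x.card = 1) (U.filter fun x => x.card = 2) := by
    rw [disjoint_left]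
    intro x hx hy
    have h1 := (mem_filter.mp hx).2
    have h2 := (mem_filter.mp hy).2
    omega
  have hn : (∅ : Finset (Fin d)) ∉ (U.filter fun x => x.card = 1) ∪ (U.filter fun x => x.card = 2) := by
    intro h
    rcases mem_union.mp h with h | h
    · have := (mem_filter.mp h).2
      simp at this
    · have := (mem_filter.mp h).2
      simp at this
  have h1 : (insert ∅ ((U.filter fun x => x.card = 1) ∪ (U.filter fun x => x.card = 2))).card =
      (U.filter fun x => x.card = 1).card + (U.filter fun x => x.card = 2).card + 1 := by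
    rw [card_insert_of_notMem hn, card_union_of_disjoint hd1]
  have h2 : (insert ∅ ((U.filter fun x => x.card = 1) ∪ (U.filter fun x => x.card = 2))).card ≤
      U.card := by
    apply card_le_card
    intro x hx
    rcases mem_insert.mp hx with h | h
    · rw [h]; exact h0
    · rcases mem_union.mp h with h | h
      · exact (mem_filter.mp h).1
      · exact (mem_filter.mp h).1
  omega

theorem CNS : CNS_stmt := by
  intro d U hD h0 hnu
  have hne : (univ.filter (fun i : Fin d => {i} ∈ U)).Nonempty := by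
    unfold nu at hnu
    obtain ⟨x, hx⟩ := card_pos.mp hnu
    obtain ⟨hxU, hx1⟩ := mem_filter.mp hx
    obtain ⟨i, rfl⟩ := card_eq_one.mp hx1
    exact ⟨i, mem_filter.mpr ⟨mem_univ _, hxU⟩⟩
  obtain ⟨o, ho, hmax⟩ := exists_max_image _ (fun i => dg i U) hne
  have hoU := (mem_filter.mp ho).2
  have h1 := CNS_dg U hD o hoU
  have hcard := CNS_card U h0
  refine ⟨o, hoU, h1, ?_, ?_⟩
  · unfold dg ee
    apply card_le_card
    intro x hx
    obtain ⟨a, b, -⟩ := mem_filter.mp hx
    exact mem_filter.mpr ⟨a, b⟩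
  · intro j hj
    by_cases hjU : {j} ∈ U
    · have h2 := hmax j (mem_filter.mpr ⟨mem_univ _, hjU⟩)
      have h3 := CNS_dg U hD j hjU
      have h4 := CNS_two U o j hj
      omega
    · have : dg j U = 0 := by
        unfold dg
        rw [card_eq_zero, filter_eq_empty_iff]
        rintro x hx ⟨-, hjx⟩
        exact hjU (hD x hx {j} (singleton_subset_iff.mpr hjx))
      omega

end Pool.Agent.helper9.HX
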